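import Pool.Agent.N625.AP.Base
import Pool.Agent.R347.SX.Trans

/-!
# The six exponentials theorem over algebraically closed fields of approximable numbers

The fields `R ⊆ K` of the rationally approximable real and of the approximable complex numbers for a
sequence `q` of integers `≥ 2` are those of the starting file `SchanuelOnSubspaces`: `K` is
algebraically closed, and for suitable `q` it has transcendence degree the cardinality of the
continuum and `R` is uncountable.

**Theorem.** (1) Let `l_1, l_2, l_3` be logarithms of algebraic numbers which are linearly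
independent over `ℚ` and let `s` be a complex number. If `exp (s l_1)`, `exp (s l_2)`, `exp (s l_3)`
are in `K`, then `s ∈ R`.

(2) Let `t` be a complex number which is not approximable for any sequence, for instance `π` or `e`,
let `P_1, P_2, P_3` be linearly independent polynomials over `ℤ`, and `ξ ≠ 0`, `s` complex numbers. If
the six numbers `exp (ξ P_i(t))`, `exp (s ξ P_i(t))` are in `K`, then `s ∈ R`.

(3) Let `t`, `P_1, P_2, P_3`, `ξ` be as in (2) and let `l_1, l_2` be logarithms of algebraic numbers
which are linearly independent over `ℚ`. Then at least one of the six numbers `exp (l_m ξ P_i(t))` is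
not in `K`.

For instance, for every `ξ ≠ 0` at least one of the numbers `2 ^ ξ, 2 ^ (ξ π), 2 ^ (ξ π ^ 2), 3 ^ ξ,
3 ^ (ξ π), 3 ^ (ξ π ^ 2)` is not in `K`. The theorem of six exponentials is the case where `K` is the
field of the algebraic numbers. The proof is a quantitative form of it, uniform in all parameters
(library `Pool.Agent.R347.SX` of the starting files, where the theorem was not handed in).
-/

set_option autoImplicit false

namespace Pool.Agent.Results.MP_47cfca_nt.SixExponentialsFields

open Pool.Agent.N625.AP Complex Polynomial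

/-- `t` is not approximable for any sequence. -/
def NowhereApproximable (t : ℂ) : Prop := ∀ q : ℕ → ℕ, (∀ k, 2 ≤ q k) → ¬ Approximable q t

/-- the statements of the theorem -/
structure Good (K : IntermediateField ℚ ℂ) (R : IntermediateField ℚ ℝ) : Prop where
  six : ∀ (s : ℂ) (l : Fin 3 → ℂ), (∀ m, IsAlgebraic ℚ (exp (l m))) → LinearIndependent ℚ l →
    (∀ m, exp (s * l m) ∈ K) → ∃ x ∈ R, s = (x : ℝ)
  six_poly : ∀ t : ℂ, NowhereApproximable t → ∀ (P : Fin 3 → ℤ[X]), LinearIndependent ℤ P →
    ∀ ξ s : ℂ, ξ ≠ 0 → (∀ m, exp (ξ * aeval t (P m)) ∈ K) →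
      (∀ m, exp (s * (ξ * aeval t (P m))) ∈ K) → ∃ x ∈ R, s = (x : ℝ)
  transposed : ∀ t : ℂ, NowhereApproximable t → ∀ (P : Fin 3 → ℤ[X]), LinearIndependent ℤ P →
    ∀ ξ : ℂ, ξ ≠ 0 → ∀ l : Fin 2 → ℂ, (∀ m, IsAlgebraic ℚ (exp (l m))) → LinearIndependent ℚ l →
      ∃ (m : Fin 2) (i : Fin 3), exp (l m * (ξ * aeval t (P i))) ∉ K

theorem int_of_lin {n : ℕ} {l : Fin n → ℂ} (h : LinearIndependent ℚ l) (c : Fin n → ℤ)
    (hc : ∑ m, (c m : ℂ) * l m = 0) : c = 0 := by
  funext m
  have h1 := Fintype.linearIndependent_iff.1 h (fun m => (c m : ℚ)) (by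
    rw [← hc]
    refine Finset.sum_congr rfl fun i _ => ?_
    rw [Algebra.smul_def]
    simp) m
  exact_mod_cast h1

theorem poly_of_lin {n : ℕ} {P : Fin n → ℤ[X]} (h : LinearIndependent ℤ P) (c : Fin n → ℤ)
    (hc : ∑ m, C (c m) * P m = 0) : c = 0 := by
  funext m
  refine Fintype.linearIndependent_iff.1 h c ?_ m
  rw [← hc]
  refine Finset.sum_congr rfl fun i _ => ?_
  rw [← smul_eq_C_mul]

theorem far_of {t : ℂ} (ht : NowhereApproximable t) : Pool.Agent.R347.SX.Far t :=
  fun q hq h => ht q hq ((approximable_iff q t).2 h)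

theorem of_far {t : ℂ} (ht : Pool.Agent.R347.SX.Far t) : NowhereApproximable t :=
  fun q hq h => ht q hq ((approximable_iff q t).1 h)

theorem good {q : ℕ → ℕ} (hq : ∀ k, 2 ≤ q k) :
    Good (Pool.Agent.R347.LW.UK hq) (Pool.Agent.R347.LW.UR hq) where
  six s l ha hl h := Pool.Agent.R347.SX.six_alg hq s l ha (int_of_lin hl) h
  six_poly t ht P hP ξ s hξ h1 h2 := by
    have hlow := Pool.Agent.R347.SX.far_low (far_of ht) P (poly_of_lin hP) ξ hξ hq
    exact Pool.Agent.R347.SX.six hq s _ hlow h1 h2
  transposed t ht P hP ξ hξ l ha hl := by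
    by_contra hcon
    push Not at hcon
    have h0 : l 0 ≠ 0 := hl.ne_zero 0
    have hlow := Pool.Agent.R347.SX.far_low (far_of ht) P (poly_of_lin hP) (l 0 * ξ)
      (mul_ne_zero h0 hξ) hq
    refine Pool.Agent.R347.SX.six_transposed hq l ha (int_of_lin hl)
      (fun i => ξ * aeval t (P i)) ?_ (fun i m => ?_)
    · simpa only [mul_assoc] using hlow
    · have := hcon m i
      rwa [mul_comm] at this

/-- **Main result.** -/
theorem result : Large ∧ NowhereApproximable (Real.pi : ℝ) ∧ NowhereApproximable (exp 1) ∧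
    ∀ q : ℕ → ℕ, (∀ k, 2 ≤ q k) → ∀ (K : IntermediateField ℚ ℂ) (R : IntermediateField ℚ ℝ),
      Fields q K R → Good K R := by
  refine ⟨large, of_far Pool.Agent.R347.SX.far_pi, of_far Pool.Agent.R347.SX.far_e,
    fun q hq K R h => ?_⟩
  obtain ⟨rfl, rfl⟩ := fields_eq hq h
  exact good hq

end Pool.Agent.Results.MP_47cfca_nt.SixExponentialsFields
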